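import Pool.Agent.Q234.KT.Stm

/-!
# Project KT, job CA: truncation of the loads
-/

set_option autoImplicit false

open scoped BigOperators
open Finset

set_option linter.unusedSectionVars false

namespace Pool.Agent.Q265.KT.CA

open Pool.Agent.Q234.KT

section

variable {V : Type} [Fintype V] [DecidableEq V] {ι : Type} [Fintype ι] [DecidableEq ι]
variable {h : ι → Finset V} {b : ι → ℂ}

theorem load_mono {P P' : Finset ι} (hP : P' ⊆ P) (v : V) : load h P' v ≤ load h P v := by
  unfold load
  exact sum_le_sum_of_subset (filter_subset_filter _ hP)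

theorem load_union {P P' : Finset ι} (hd : Disjoint P P') (v : V) :
    load h (P ∪ P') v = load h P v + load h P' v := by
  unfold load
  rw [filter_union, sum_union]
  exact disjoint_filter_filter hd

theorem load_zero {P : Finset ι} {v : V} (hh : ∀ i, (h i).Nonempty) (h0 : load h P v ≤ 0) :
    ∀ i ∈ P, v ∉ h i := by
  intro i hi hv
  unfold load at h0
  have h1 : (h i).card ≤ ∑ i ∈ P.filter (fun i => v ∈ h i), (h i).card :=
    single_le_sum (f := fun i => (h i).card) (fun _ _ => Nat.zero_le _) (mem_filter.2 ⟨hi, hv⟩)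
  have h2 := (hh i).card_pos
  omega

theorem load_all {P : Finset ι} {v : V} (hP : ∀ i ∈ P, v ∈ h i) :
    load h P v = ∑ i ∈ P, (h i).card := by
  unfold load
  rw [filter_true_of_mem hP]

theorem load_none {P : Finset ι} {v : V} (hP : ∀ i ∈ P, v ∉ h i) : load h P v = 0 := by
  unfold load
  rw [filter_false_of_mem hP, sum_empty]

/-- the sets of polymers through `v` with load more than `k` at `v` -/
noncomputable def Th (h : ι → Finset V) (c : V → ℕ) (v : V) (k : ℕ) : Finset (Finset ι) :=
  univ.filter fun P => (∀ i ∈ P, v ∈ h i) ∧ k < load h P v ∧ ∀ u, load h P u ≤ c u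

theorem identity (hh : ∀ i, (h i).Nonempty) (c : V → ℕ) (v : V) (k : ℕ) (hk : k < c v) :
    Zc h b c - Zc h b (Function.update c v k) =
      ∑ P ∈ Th h c v k, (∏ i ∈ P, b i) * Zc h b (Function.update (fun u => c u - load h P u) v 0) := by
  have h1 : (univ.filter fun P : Finset ι => ∀ u, load h P u ≤ Function.update c v k u) =
      (univ.filter fun P : Finset ι => ∀ u, load h P u ≤ c u).filter fun P => ¬ k < load h P v := by
    ext P
    simp only [mem_filter, mem_univ, true_and]
    constructor
    · intro h2
      constructor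
      · intro u
        by_cases hu : u = v
        · subst hu
          have := h2 u
          rw [Function.update_self] at this
          omega
        · have := h2 u
          rwa [Function.update_of_ne hu] at this
      · have := h2 v
        rw [Function.update_self] at this
        omega
    · rintro ⟨h2, h3⟩ u
      by_cases hu : u = v
      · subst hu
        rw [Function.update_self]
        omega
      · rw [Function.update_of_ne hu]
        exact h2 u
  have h2 : Zc h b c - Zc h b (Function.update c v k) =
      ∑ P ∈ (univ.filter fun P : Finset ι => ∀ u, load h P u ≤ c u).filter (fun P => k < load h P v),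
        ∏ i ∈ P, b i := by
    unfold Zc
    rw [h1, ← sum_filter_add_sum_filter_not
      (univ.filter fun P : Finset ι => ∀ u, load h P u ≤ c u) (fun P => k < load h P v)]
    ring
  rw [h2]
  unfold Zc
  simp only [mul_sum]
  rw [sum_sigma']
  refine sum_nbij' (fun P => ⟨P.filter (fun i => v ∈ h i), P.filter (fun i => ¬ v ∈ h i)⟩)
    (fun x => x.1 ∪ x.2) ?_ ?_ ?_ ?_ ?_
  · intro P hP
    simp only [mem_filter, mem_univ, true_and] at hP
    simp only [mem_sigma, Th, mem_filter, mem_univ, true_and]
    have hu : ∀ u, load h P u = load h (P.filter (fun i => v ∈ h i)) u +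
        load h (P.filter (fun i => ¬ v ∈ h i)) u := by
      intro u
      rw [← load_union (disjoint_filter_filter_not _ _ _), filter_union_filter_not_eq]
    have hv : load h (P.filter (fun i => ¬ v ∈ h i)) v = 0 :=
      load_none fun i hi => (mem_filter.1 hi).2
    refine ⟨⟨fun i hi => (hi.2), ?_, fun u => ?_⟩, fun u => ?_⟩
    · have := hu v
      omega
    · have := hu u
      have := hP.1 u
      omega
    · by_cases huv : u = v
      · subst huv
        rw [Function.update_self, hv]
      · rw [Function.update_of_ne huv]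
        have := hu u
        have := hP.1 u
        omega
  · rintro ⟨P', P''⟩ hx
    simp only [mem_sigma, Th, mem_filter, mem_univ, true_and] at hx
    obtain ⟨⟨h3, h4, h5⟩, h6⟩ := hx
    have h7 : ∀ i ∈ P'', v ∉ h i := by
      apply load_zero hh
      have := h6 v
      rwa [Function.update_self] at this
    have hd : Disjoint P' P'' := by
      rw [disjoint_left]
      intro i hi hi'
      exact h7 i hi' (h3 i hi)
    simp only [mem_filter, mem_univ, true_and]
    have hu : ∀ u, load h (P' ∪ P'') u = load h P' u + load h P'' u := fun u => load_union hd u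
    constructor
    · intro u
      rw [hu]
      by_cases huv : u = v
      · subst huv
        rw [load_none h7]
        have := h5 u
        omega
      · have h8 := h6 u
        rw [Function.update_of_ne huv] at h8
        have := h5 u
        omega
    · rw [hu]
      omega
  · intro P hP
    exact filter_union_filter_not_eq _ _
  · rintro ⟨P', P''⟩ hx
    simp only [mem_sigma, Th, mem_filter, mem_univ, true_and] at hx
    obtain ⟨⟨h3, h4, h5⟩, h6⟩ := hx
    have h7 : ∀ i ∈ P'', v ∉ h i := by
      apply load_zero hh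
      have := h6 v
      rwa [Function.update_self] at this
    have h8 : (P' ∪ P'').filter (fun i => v ∈ h i) = P' := by
      rw [filter_union, filter_true_of_mem h3, filter_false_of_mem h7, union_empty]
    have h9 : (P' ∪ P'').filter (fun i => ¬ v ∈ h i) = P'' := by
      rw [filter_union, filter_true_of_mem h7, filter_false_of_mem (fun i hi => not_not.2 (h3 i hi)),
        empty_union]
    simp only [h8, h9]
  · intro P hP
    simp only
    rw [← prod_union (disjoint_filter_filter_not _ _ _), filter_union_filter_not_eq]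

/-- lowering the capacities one after the other -/
theorem lower {c' : V → ℕ} (hc : ∀ c₂ : V → ℕ, (∀ u, c₂ u ≤ c' u) → ∀ v k, k < c₂ v →
    ‖Zc h b (Function.update c₂ v k)‖ ≤ 2 * ‖Zc h b c₂‖) (U : Finset V) :
    ∀ c₁ : V → ℕ, (∀ u, u ∉ U → c₁ u = c' u) → (∀ u, c₁ u ≤ c' u) →
      ‖Zc h b c₁‖ ≤ 2 ^ U.card * ‖Zc h b c'‖ := by
  induction U using Finset.induction_on with
  | empty =>
    intro c₁ h1 h2
    have : c₁ = c' := funext fun u => h1 u (notMem_empty u)
    rw [this, card_empty, pow_zero, one_mul]
  | insert a U ha ih =>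
    intro c₁ h1 h2
    have h3 := ih (Function.update c₁ a (c' a)) (fun u hu => by
      by_cases hua : u = a
      · subst hua
        rw [Function.update_self]
      · rw [Function.update_of_ne hua]
        exact h1 u (by simp [hua, hu])) (fun u => by
      by_cases hua : u = a
      · subst hua
        rw [Function.update_self]
      · rw [Function.update_of_ne hua]
        exact h2 u)
    rcases (h2 a).lt_or_eq with hlt | heq
    · have h4 := hc (Function.update c₁ a (c' a)) (fun u => by
        by_cases hua : u = a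
        · subst hua
          rw [Function.update_self]
        · rw [Function.update_of_ne hua]
          exact h2 u) a (c₁ a) (by rw [Function.update_self]; exact hlt)
      rw [Function.update_idem, Function.update_eq_self] at h4
      rw [card_insert_of_notMem ha, pow_succ]
      calc ‖Zc h b c₁‖ ≤ 2 * ‖Zc h b (Function.update c₁ a (c' a))‖ := h4
        _ ≤ 2 * (2 ^ U.card * ‖Zc h b c'‖) := by gcongr
        _ = 2 ^ U.card * 2 * ‖Zc h b c'‖ := by ring
    · rw [← heq, Function.update_eq_self] at h3
      refine h3.trans ?_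
      gcongr
      · norm_num
      · exact subset_insert _ _

theorem exp_quarter : Real.exp (1 / 4) ≤ 3 / 2 := by
  have h1 := Real.exp_bound_div_one_sub_of_interval (x := 1 / 4) (by norm_num) (by norm_num)
  refine h1.trans ?_
  norm_num

/-- the sum over the sets of polymers through `v` -/
theorem sum_le_prod {x : ι → ℝ} (hx : ∀ i, 0 ≤ x i) {v : V}
    (hs : ∑ i ∈ univ.filter (fun i => v ∈ h i), x i ≤ 1 / 4) (T : Finset (Finset ι))
    (hT : ∀ P ∈ T, ∀ i ∈ P, v ∈ h i) : ∑ P ∈ T, ∏ i ∈ P, x i ≤ 3 / 2 := by
  have h1 : ∑ P ∈ T, ∏ i ∈ P, x i ≤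
      ∑ P ∈ (univ.filter (fun i => v ∈ h i)).powerset, ∏ i ∈ P, x i := by
    refine sum_le_sum_of_subset_of_nonneg (fun P hP => ?_) (fun P _ _ => prod_nonneg fun i _ => hx i)
    rw [mem_powerset]
    intro i hi
    exact mem_filter.2 ⟨mem_univ _, hT P hP i hi⟩
  rw [← prod_one_add] at h1
  refine h1.trans (le_trans ?_ exp_quarter)
  calc ∏ i ∈ univ.filter (fun i => v ∈ h i), (1 + x i) ≤
      ∏ i ∈ univ.filter (fun i => v ∈ h i), Real.exp (x i) := by
        refine prod_le_prod (fun i _ => by have := hx i; positivity) (fun i _ => ?_)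
        have := Real.add_one_le_exp (x i)
        linarith
    _ = Real.exp (∑ i ∈ univ.filter (fun i => v ∈ h i), x i) := by rw [Real.exp_sum]
    _ ≤ Real.exp (1 / 4) := Real.exp_le_exp.2 hs

/-- the same without the empty set -/
theorem sum_le_prod' {x : ι → ℝ} (hx : ∀ i, 0 ≤ x i) {v : V}
    (hs : ∑ i ∈ univ.filter (fun i => v ∈ h i), x i ≤ 1 / 4) (T : Finset (Finset ι))
    (hT : ∀ P ∈ T, ∀ i ∈ P, v ∈ h i) (h0 : ∅ ∉ T) : ∑ P ∈ T, ∏ i ∈ P, x i ≤ 1 / 2 := by
  have h1 := sum_le_prod hx hs (insert ∅ T) (fun P hP i hi => by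
    rcases mem_insert.1 hP with rfl | hP
    · simp at hi
    · exact hT P hP i hi)
  rw [sum_insert h0, prod_empty] at h1
  linarith

/-- the error of one step, with a factor -/
theorem step_le {c : V → ℕ} {v : V} {k : ℕ} (hh : ∀ i, (h i).Nonempty) (hk : k < c v)
    (hc : ∀ c₂ : V → ℕ, (∀ u, c₂ u ≤ Function.update c v k u) → ∀ v k, k < c₂ v →
      ‖Zc h b (Function.update c₂ v k)‖ ≤ 2 * ‖Zc h b c₂‖) :
    ‖Zc h b c - Zc h b (Function.update c v k)‖ ≤
      (∑ P ∈ Th h c v k, ∏ i ∈ P, (‖b i‖ * 2 ^ (h i).card)) *
        ‖Zc h b (Function.update c v k)‖ := by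
  rw [identity hh c v k hk, sum_mul]
  refine (norm_sum_le _ _).trans (sum_le_sum fun P hP => ?_)
  simp only [Th, mem_filter, mem_univ, true_and] at hP
  obtain ⟨h1, h2, h3⟩ := hP
  have h4 := lower hc (P.biUnion h) (Function.update (fun u => c u - load h P u) v 0)
    (fun u hu => by
      have hu' : ∀ i ∈ P, u ∉ h i := by
        intro i hi hui
        exact hu (mem_biUnion.2 ⟨i, hi, hui⟩)
      by_cases huv : u = v
      · exfalso
        subst huv
        rw [load_none hu'] at h2
        omega
      · rw [Function.update_of_ne huv, Function.update_of_ne huv, load_none hu', Nat.sub_zero])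
    (fun u => by
      by_cases huv : u = v
      · subst huv
        rw [Function.update_self]
        exact Nat.zero_le _
      · rw [Function.update_of_ne huv, Function.update_of_ne huv]
        exact Nat.sub_le _ _)
  rw [norm_mul, norm_prod, prod_mul_distrib]
  have h5 : (2 : ℝ) ^ (P.biUnion h).card ≤ ∏ i ∈ P, 2 ^ (h i).card := by
    rw [prod_pow_eq_pow_sum]
    exact pow_le_pow_right₀ (by norm_num) card_biUnion_le
  calc (∏ i ∈ P, ‖b i‖) * ‖Zc h b (Function.update (fun u => c u - load h P u) v 0)‖ ≤
      (∏ i ∈ P, ‖b i‖) * (2 ^ (P.biUnion h).card * ‖Zc h b (Function.update c v k)‖) := by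
        gcongr
    _ ≤ (∏ i ∈ P, ‖b i‖) * ((∏ i ∈ P, 2 ^ (h i).card) * ‖Zc h b (Function.update c v k)‖) := by
        gcongr
    _ = _ := by ring

/-- the claim of the induction -/
theorem claim {q : ℝ} (hh : ∀ i, (h i).Nonempty) (hq : 1 ≤ q)
    (hb : ∀ v, ∑ i ∈ univ.filter (fun i => v ∈ h i), ‖b i‖ * (2 * q) ^ (h i).card ≤ 1 / 4) (n : ℕ) :
    ∀ c : V → ℕ, ∑ v, c v ≤ n → ∀ v k, k < c v →
      ‖Zc h b (Function.update c v k)‖ ≤ 2 * ‖Zc h b c‖ := by
  induction n with
  | zero =>
    intro c hc v k hk
    exfalso
    have : c v ≤ ∑ v, c v := single_le_sum (fun _ _ => Nat.zero_le _) (mem_univ v)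
    omega
  | succ n ih =>
    intro c hc v k hk
    have h1 : ∀ c₂ : V → ℕ, (∀ u, c₂ u ≤ Function.update c v k u) → ∀ v k, k < c₂ v →
        ‖Zc h b (Function.update c₂ v k)‖ ≤ 2 * ‖Zc h b c₂‖ := by
      intro c₂ h2
      apply ih
      have h3 : ∑ u, c₂ u < ∑ u, c u := by
        refine sum_lt_sum (fun u _ => ?_) ⟨v, mem_univ v, ?_⟩
        · by_cases huv : u = v
          · subst huv
            have := h2 u
            rw [Function.update_self] at this
            omega
          · have := h2 u
            rwa [Function.update_of_ne huv] at this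
        · have := h2 v
          rw [Function.update_self] at this
          omega
      omega
    have h2 := step_le hh hk h1
    have h3 : ∑ P ∈ Th h c v k, ∏ i ∈ P, (‖b i‖ * 2 ^ (h i).card) ≤ 1 / 2 := by
      refine sum_le_prod' (h := h) (v := v) (fun i => by positivity) ?_ _ (fun P hP => ?_) ?_
      · refine (sum_le_sum fun i _ => ?_).trans (hb v)
        gcongr
        linarith
      · exact ((mem_filter.1 hP).2).1
      · intro h0
        have h4 := ((mem_filter.1 h0).2).2.1
        rw [load_none (by simp)] at h4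
        omega
    have h4 : ‖Zc h b (Function.update c v k)‖ ≤ ‖Zc h b c‖ +
        ‖Zc h b c - Zc h b (Function.update c v k)‖ := by
      have := norm_sub_le (Zc h b c) (Zc h b c - Zc h b (Function.update c v k))
      rwa [sub_sub_cancel] at this
    have h5 := mul_le_mul_of_nonneg_right h3 (norm_nonneg (Zc h b (Function.update c v k)))
    linarith

theorem step_small {q : ℝ} (hh : ∀ i, (h i).Nonempty) (hq : 1 ≤ q)
    (hb : ∀ v, ∑ i ∈ univ.filter (fun i => v ∈ h i), ‖b i‖ * (2 * q) ^ (h i).card ≤ 1 / 4)
    {c : V → ℕ} {v : V} {k : ℕ} (hk : k < c v) :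
    ‖Zc h b c - Zc h b (Function.update c v k)‖ ≤
      2 / q ^ k * ‖Zc h b (Function.update c v k)‖ := by
  have hq0 : 0 < q := by linarith
  refine (step_le hh hk (fun c₂ _ => claim hh hq hb _ c₂ le_rfl)).trans ?_
  gcongr
  have h1 : ∑ P ∈ Th h c v k, ∏ i ∈ P, (‖b i‖ * (2 * q) ^ (h i).card) ≤ 3 / 2 :=
    sum_le_prod (h := h) (v := v) (fun i => by positivity) (hb v) _
      (fun P hP => ((mem_filter.1 hP).2).1)
  have h2 : ∑ P ∈ Th h c v k, ∏ i ∈ P, (‖b i‖ * 2 ^ (h i).card) ≤
      ∑ P ∈ Th h c v k, (∏ i ∈ P, (‖b i‖ * (2 * q) ^ (h i).card)) / q ^ k := by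
    refine sum_le_sum fun P hP => ?_
    obtain ⟨h3, h4, h5⟩ := (mem_filter.1 hP).2
    rw [load_all h3] at h4
    rw [le_div_iff₀ (by positivity)]
    have h6 : ∏ i ∈ P, (‖b i‖ * (2 * q) ^ (h i).card) =
        (∏ i ∈ P, (‖b i‖ * 2 ^ (h i).card)) * q ^ (∑ i ∈ P, (h i).card) := by
      rw [← prod_pow_eq_pow_sum, ← prod_mul_distrib]
      refine prod_congr rfl fun i _ => ?_
      rw [mul_pow]
      ring
    rw [h6]
    gcongr
  rw [← sum_div] at h2
  refine h2.trans ?_
  gcongr
  linarith

end

theorem main : CapS := by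
  intro V _ _ ι _ _ h b q s hh hq hb
  have hq0 : 0 < q := by linarith
  set x : ℝ := 2 / q ^ s with hx
  have hx0 : 0 ≤ x := by positivity
  obtain ⟨N, hN, hN'⟩ : ∃ N : ℕ, s < N ∧ ∑ i, (h i).card ≤ N :=
    ⟨s + 1 + ∑ i, (h i).card, by omega, by omega⟩
  have key : ∀ U : Finset V, ‖Zc h b (fun u => if u ∈ U then N else s) - Zc h b (fun _ => s)‖ ≤
      ((1 + x) ^ U.card - 1) * ‖Zc h b (fun _ => s)‖ := by
    intro U
    induction U using Finset.induction_on with
    | empty => simp
    | insert a U ha ih =>
      have h1 : Function.update (fun u => if u ∈ insert a U then N else s) a s =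
          fun u => if u ∈ U then N else s := by
        funext u
        by_cases hua : u = a
        · subst hua
          rw [Function.update_self, if_neg ha]
        · rw [Function.update_of_ne hua]
          simp [mem_insert, hua]
      have h2 := step_small (h := h) (b := b) hh hq hb
        (c := fun u => if u ∈ insert a U then N else s) (v := a) (k := s) (by simp [hN])
      rw [h1] at h2
      have h3 : ‖Zc h b (fun u => if u ∈ U then N else s)‖ ≤
          (1 + x) ^ U.card * ‖Zc h b (fun _ => s)‖ := by
        have h4 := norm_add_le (Zc h b (fun u => if u ∈ U then N else s) - Zc h b (fun _ => s))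
          (Zc h b (fun _ => s))
        rw [sub_add_cancel] at h4
        nlinarith [ih, h4]
      have h5 := norm_sub_le_norm_sub_add_norm_sub (Zc h b (fun u => if u ∈ insert a U then N else s))
        (Zc h b (fun u => if u ∈ U then N else s)) (Zc h b (fun _ => s))
      have h6 : 2 / q ^ s * ‖Zc h b (fun u => if u ∈ U then N else s)‖ ≤
          x * ((1 + x) ^ U.card * ‖Zc h b (fun _ => s)‖) := by
        rw [← hx]
        gcongr
      rw [card_insert_of_notMem ha, pow_succ]
      calc _ ≤ _ := h5
        _ ≤ x * ((1 + x) ^ U.card * ‖Zc h b (fun _ => s)‖) +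
            ((1 + x) ^ U.card - 1) * ‖Zc h b (fun _ => s)‖ := add_le_add (h2.trans h6) ih
        _ = _ := by ring
  have h1 := key univ
  have h2 : Zc h b (fun u => if u ∈ (univ : Finset V) then N else s) = ∏ i, (1 + b i) := by
    unfold Zc
    rw [prod_one_add, powerset_univ, filter_true_of_mem]
    intro P _ v
    simp only [mem_univ, if_true]
    refine le_trans ?_ hN'
    unfold load
    exact sum_le_sum_of_subset (subset_univ _)
  rw [h2, card_univ] at h1
  exact h1

end Pool.Agent.Q265.KT.CA
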