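import Pool.Agent.Q234.KT.Stm

/-!
# Project KT, job RP: the truncated sum is a PEPS
-/

set_option autoImplicit false

open scoped BigOperators
open Finset Pool.Agent.TH235.PP

set_option linter.unusedSectionVars false

namespace Pool.Agent.Q265.KT.RP

open Pool.Agent.Q234.KT

section gen

variable {P : Type} [Fintype P] [DecidableEq P]

/-- the typed set of a pair -/
def mk (A T : Finset P) : Finset (P × Bool) := T ×ˢ {true} ∪ (A \ T) ×ˢ {false}

/-- every element has at most one type -/
def Fn (Q : Finset (P × Bool)) : Prop := ∀ X, (X, true) ∈ Q → (X, false) ∉ Q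

instance : DecidablePred (Fn (P := P)) := fun Q => by
  unfold Fn
  infer_instance

theorem mem_mk {A T : Finset P} {X : P} {c : Bool} :
    (X, c) ∈ mk A T ↔ (X ∈ T ∧ c = true) ∨ ((X ∈ A ∧ X ∉ T) ∧ c = false) := by
  simp [mk]

theorem dj (A T : Finset P) : Disjoint (T ×ˢ ({true} : Finset Bool)) ((A \ T) ×ˢ ({false} : Finset Bool)) := by
  rw [Finset.disjoint_left]
  rintro ⟨X, c⟩ h1 h2
  simp only [mem_product, mem_singleton] at h1 h2
  rw [h1.2] at h2
  exact absurd h2.2 (by decide)

theorem prod_mk (A T : Finset P) (f : P × Bool → ℂ) :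
    ∏ p ∈ mk A T, f p = (∏ X ∈ T, f (X, true)) * ∏ X ∈ A \ T, f (X, false) := by
  unfold mk
  rw [prod_union (dj A T), prod_product, prod_product]
  simp only [prod_singleton]

theorem sum_mk (A T : Finset P) (hT : T ⊆ A) (f : P × Bool → ℕ) (f' : P → ℕ)
    (hf : ∀ X c, f (X, c) = f' X) : ∑ p ∈ mk A T, f p = ∑ X ∈ A, f' X := by
  unfold mk
  rw [sum_union (dj A T), sum_product, sum_product]
  simp only [sum_singleton, hf]
  rw [add_comm]
  exact sum_sdiff hT

theorem fn_mk (A T : Finset P) : Fn (mk A T) := by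
  intro X h1 h2
  rw [mem_mk] at h1 h2
  rcases h1 with h1 | h1
  · rcases h2 with h2 | h2
    · exact absurd h2.2 (by decide)
    · exact h2.1.2 h1.1
  · exact absurd h1.2 (by decide)

theorem mk_inj {A T A' T' : Finset P} (hT : T ⊆ A) (hT' : T' ⊆ A') (h : mk A T = mk A' T') :
    A = A' ∧ T = T' := by
  have h1 : ∀ X c, (X, c) ∈ mk A T ↔ (X, c) ∈ mk A' T' := fun X c => by rw [h]
  have h2 : T = T' := by
    ext X
    have := h1 X true
    rw [mem_mk, mem_mk] at this
    simpa using this
  subst h2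
  refine ⟨?_, rfl⟩
  ext X
  by_cases hX : X ∈ T
  · exact ⟨fun _ => hT' hX, fun _ => hT hX⟩
  · have := h1 X false
    rw [mem_mk, mem_mk] at this
    simpa [hX] using this

theorem mk_surj {Q : Finset (P × Bool)} (hQ : Fn Q) : ∃ A T : Finset P, T ⊆ A ∧ mk A T = Q := by
  refine ⟨univ.filter fun X => (X, true) ∈ Q ∨ (X, false) ∈ Q, univ.filter fun X => (X, true) ∈ Q,
    fun X hX => ?_, ?_⟩
  · simp only [mem_filter, mem_univ, true_and] at hX ⊢
    exact Or.inl hX
  · ext ⟨X, c⟩
    rw [mem_mk]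
    simp only [mem_filter, mem_univ, true_and]
    constructor
    · rintro (⟨h1, rfl⟩ | ⟨⟨h1 | h1, h2⟩, rfl⟩)
      · exact h1
      · exact absurd h1 h2
      · exact h1
    · intro h
      cases c
      · right
        exact ⟨⟨Or.inr h, fun h' => hQ X h' h⟩, rfl⟩
      · left
        exact ⟨h, rfl⟩

theorem sum_typed (C : Finset P → Prop) [DecidablePred C] (C' : Finset (P × Bool) → Prop)
    [DecidablePred C'] (hC : ∀ A T, T ⊆ A → (C' (mk A T) ↔ C A)) (f : P × Bool → ℂ) :
    ∑ A ∈ univ.filter C, ∏ X ∈ A, (f (X, true) + f (X, false)) =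
      ∑ Q ∈ univ.filter (fun Q => Fn Q ∧ C' Q), ∏ p ∈ Q, f p := by
  simp_rw [Finset.prod_add]
  rw [Finset.sum_sigma']
  refine Finset.sum_bij (fun x _ => mk x.1 x.2) ?_ ?_ ?_ ?_
  · rintro ⟨A, T⟩ h
    simp only [mem_sigma, mem_filter, mem_univ, true_and, mem_powerset] at h ⊢
    exact ⟨fn_mk A T, (hC A T h.2).2 h.1⟩
  · rintro ⟨A, T⟩ h ⟨A', T'⟩ h' hh
    simp only [mem_sigma, mem_filter, mem_univ, true_and, mem_powerset] at h h' hh
    obtain ⟨rfl, rfl⟩ := mk_inj h.2 h'.2 hh
    rfl
  · intro Q hQ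
    simp only [mem_filter, mem_univ, true_and] at hQ
    obtain ⟨A, T, hT, rfl⟩ := mk_surj hQ.1
    refine ⟨⟨A, T⟩, ?_, rfl⟩
    simp only [mem_sigma, mem_filter, mem_univ, true_and, mem_powerset]
    exact ⟨(hC A T hT).1 hQ.2, hT⟩
  · rintro ⟨A, T⟩ h
    rw [prod_mk]

end gen

section torus

variable {L : ℕ} [NeZero L] {TP : Type} [Fintype TP] [DecidableEq TP]

theorem consistent (g : TP → Finset (Site L)) (hg : ∀ p, Conn (g p)) (Qf : Site L → Finset TP)
    (h0 : ∀ v, ∀ p ∈ Qf v, v ∈ g p)
    (h1 : ∀ x : Site L, (Qf x).filter (fun p => ((x.1 + 1, x.2) : Site L) ∈ g p) =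
      (Qf (x.1 + 1, x.2)).filter (fun p => ((x.1 + 1 - 1, x.2) : Site L) ∈ g p))
    (h2 : ∀ x : Site L, (Qf x).filter (fun p => ((x.1, x.2 + 1) : Site L) ∈ g p) =
      (Qf (x.1, x.2 + 1)).filter (fun p => ((x.1, x.2 + 1 - 1) : Site L) ∈ g p)) (v : Site L) :
    Qf v = (univ.biUnion Qf).filter (fun p => v ∈ g p) := by
  ext p
  simp only [mem_filter, mem_biUnion, mem_univ, true_and]
  refine ⟨fun h => ⟨⟨v, h⟩, h0 v p h⟩, ?_⟩
  rintro ⟨⟨v₀, hv₀⟩, hv⟩
  have e1 : ∀ x : Site L, (x.1 + 1 - 1, x.2) = x := fun x => by rw [add_sub_cancel_right]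
  have e2 : ∀ x : Site L, (x.1, x.2 + 1 - 1) = x := fun x => by rw [add_sub_cancel_right]
  by_contra hp
  set T : Finset (Site L) := (g p).filter (fun u => p ∈ Qf u) with hT
  have hTs : T ⊆ g p := filter_subset _ _
  have hTn : T.Nonempty := ⟨v₀, mem_filter.2 ⟨h0 v₀ p hv₀, hv₀⟩⟩
  have hTe : T ≠ g p := by
    intro h
    rw [← h] at hv
    exact hp (mem_filter.1 hv).2
  obtain ⟨u, hu, w, hw, hwT, hadj⟩ := hg p T hTs hTn hTe
  obtain ⟨hu1, hu2⟩ := mem_filter.1 hu
  apply hwT
  rw [hT, mem_filter]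
  refine ⟨hw, ?_⟩
  rcases hadj with h | h | h | h
  · have h3 := h1 u
    have h4 : p ∈ (Qf u).filter (fun p => ((u.1 + 1, u.2) : Site L) ∈ g p) :=
      mem_filter.2 ⟨hu2, by rw [← h]; exact hw⟩
    rw [h3, mem_filter, ← h] at h4
    exact h4.1
  · have h3 := h2 u
    have h4 : p ∈ (Qf u).filter (fun p => ((u.1, u.2 + 1) : Site L) ∈ g p) :=
      mem_filter.2 ⟨hu2, by rw [← h]; exact hw⟩
    rw [h3, mem_filter, ← h] at h4
    exact h4.1
  · have h3 := h1 w
    have h4 : p ∈ (Qf (w.1 + 1, w.2)).filter (fun p => ((w.1 + 1 - 1, w.2) : Site L) ∈ g p) :=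
      mem_filter.2 ⟨by rw [← h]; exact hu2, by rw [e1]; exact hw⟩
    rw [← h3, mem_filter] at h4
    exact h4.1
  · have h3 := h2 w
    have h4 : p ∈ (Qf (w.1, w.2 + 1)).filter (fun p => ((w.1, w.2 + 1 - 1) : Site L) ∈ g p) :=
      mem_filter.2 ⟨by rw [← h]; exact hu2, by rw [e2]; exact hw⟩
    rw [← h3, mem_filter] at h4
    exact h4.1

theorem edge1 (g : TP → Finset (Site L)) (Q : Finset TP) (x : Site L) :
    (Q.filter (fun p => x ∈ g p)).filter (fun p => ((x.1 + 1, x.2) : Site L) ∈ g p) =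
      (Q.filter (fun p => ((x.1 + 1, x.2) : Site L) ∈ g p)).filter
        (fun p => ((x.1 + 1 - 1, x.2) : Site L) ∈ g p) := by
  ext p
  have e1 : ((x.1 + 1 - 1, x.2) : Site L) = x := by rw [add_sub_cancel_right]
  rw [e1]
  simp only [mem_filter]
  tauto

theorem edge2 (g : TP → Finset (Site L)) (Q : Finset TP) (x : Site L) :
    (Q.filter (fun p => x ∈ g p)).filter (fun p => ((x.1, x.2 + 1) : Site L) ∈ g p) =
      (Q.filter (fun p => ((x.1, x.2 + 1) : Site L) ∈ g p)).filter
        (fun p => ((x.1, x.2 + 1 - 1) : Site L) ∈ g p) := by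
  ext p
  have e1 : ((x.1, x.2 + 1 - 1) : Site L) = x := by rw [add_sub_cancel_right]
  rw [e1]
  simp only [mem_filter]
  tauto

theorem bU (g : TP → Finset (Site L)) (hg : ∀ p, (g p).Nonempty) (Q : Finset TP) :
    (univ.biUnion fun v : Site L => Q.filter (fun p => v ∈ g p)) = Q := by
  ext p
  simp only [mem_biUnion, mem_univ, true_and, mem_filter]
  constructor
  · rintro ⟨v, h, -⟩
    exact h
  · intro h
    obtain ⟨v, hv⟩ := hg p
    exact ⟨v, h, hv⟩

end torus

theorem main (hloc : LocS) : RepS := by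
  intro L _ h α β s D hsub hconn hD
  have hne : ∀ X, (h X).Nonempty := fun X => X.2.mono (hsub X)
  choose root hroot using hne
  set TP := {X : Finset (Site L) // X.Nonempty} × Bool with hTP
  set g : TP → Finset (Site L) := fun p => h p.1 with hg
  set Good : Site L → Finset TP → Prop := fun v N => Fn N ∧ N ∈ typ h s v with hGood
  set sel : Site L → Finset TP → Finset TP := fun v N => if N ∈ typ h s v then N else ∅ with hsel
  set w : Site L → Fin 2 → TP → ℂ := fun v a p =>
    (if v = root p.1 then (if p.2 then β p.1 else α p.1) else 1) *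
      (if p.2 = true ∧ v ∈ p.1.1 then sg a else 1) with hw
  set W : Site L → Fin 2 → Finset TP → ℂ := fun v a N =>
    if Fn N ∧ N ∈ typ h s v then ∏ p ∈ N, w v a p else 0 with hW
  have hempty : ∀ v, (∅ : Finset TP) ∈ typ h s v := by
    intro v
    simp [typ]
  have hselt : ∀ v N, sel v N ∈ typ h s v := by
    intro v N
    simp only [hsel]
    split_ifs with h1
    · exact h1
    · exact hempty v
  have hsubt : ∀ v (N : Finset TP) (q : TP → Prop) [DecidablePred q], N ∈ typ h s v →
      N.filter q ∈ typ h s v := by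
    intro v N q _ hN
    simp only [typ, mem_filter, mem_univ, true_and] at hN ⊢
    refine ⟨fun p hp => hN.1 p hp.1, le_trans (sum_le_sum_of_subset (filter_subset _ _)) hN.2⟩
  obtain ⟨A, hA⟩ := hloc L (Finset TP) (Finset TP) D W
    (fun x N => N.filter (fun p => ((x.1 - 1, x.2) : Site L) ∈ g p))
    (fun x N => (sel x N).filter (fun p => ((x.1 + 1, x.2) : Site L) ∈ g p))
    (fun x N => N.filter (fun p => ((x.1, x.2 - 1) : Site L) ∈ g p))
    (fun x N => (sel x N).filter (fun p => ((x.1, x.2 + 1) : Site L) ∈ g p))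
    (fun x => typ h s x) (fun x => typ h s x) hD hD (fun x N => hsubt x _ _ (hselt x N))
    (fun x N => hsubt x _ _ (hselt x N))
  refine ⟨A, ?_⟩
  rw [← hA]
  funext σ
  set f : TP → ℂ := fun p => if p.2 then β p.1 * ch p.1.1 σ else α p.1 with hf
  have hf' : ∀ p : TP, ∏ v ∈ h p.1, w v (σ v) p = f p := by
    intro p
    simp only [hw, hf]
    rw [prod_mul_distrib, prod_ite_eq', if_pos (hroot p.1)]
    cases hp : p.2
    · simp
    · simp only [if_true, true_and]
      congr 1
      unfold ch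
      rw [← prod_filter]
      congr 1
      ext v
      simp only [mem_filter]
      exact ⟨fun hv => hv.2, fun hv => ⟨hsub p.1 hv, hv⟩⟩
  have e1 : Zc h (fun X => α X + β X * ch X.1 σ) (fun _ => s) =
      ∑ Q ∈ univ.filter (fun Q : Finset TP => Fn Q ∧
        ∀ v, ∑ p ∈ Q.filter (fun p => v ∈ h p.1), (h p.1).card ≤ s), ∏ p ∈ Q, f p := by
    rw [← sum_typed (fun P => ∀ v, load h P v ≤ s)]
    · unfold Zc
      refine sum_congr rfl fun P _ => prod_congr rfl fun X _ => ?_
      simp only [hf]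
      simp only [if_true, Bool.false_eq_true, if_false]
      rw [add_comm]
    · intro A T hT
      refine forall_congr' fun v => ?_
      have : ∑ p ∈ (mk A T).filter (fun p => v ∈ h p.1), (h p.1).card = load h A v := by
        unfold load
        rw [sum_filter, sum_filter]
        exact sum_mk A T hT _ _ (fun X c => rfl)
      rw [this]
  have htyp : ∀ (Q : Finset TP) (v : Site L),
      (∑ p ∈ Q.filter (fun p => v ∈ h p.1), (h p.1).card ≤ s) →
      Q.filter (fun p => v ∈ g p) ∈ typ h s v := by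
    intro Q v hQ
    simp only [typ, mem_filter, mem_univ, true_and]
    exact ⟨fun p hp => hp.2, hQ⟩
  rw [e1]
  refine Finset.sum_of_injOn (fun (Q : Finset TP) (v : Site L) => Q.filter (fun p => v ∈ g p)) ?_ ?_ ?_ ?_
  · intro Q _ Q' _ hQQ
    simp only at hQQ
    rw [← bU g (fun p => ⟨_, hroot p.1⟩) Q, ← bU g (fun p => ⟨_, hroot p.1⟩) Q', hQQ]
  · intro Q hQ
    simp only [coe_filter, mem_univ, true_and, Set.mem_ofPred_eq] at hQ ⊢
    have hs : ∀ v, sel v (Q.filter (fun p => v ∈ g p)) = Q.filter (fun p => v ∈ g p) := by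
      intro v
      simp only [hsel]
      rw [if_pos (htyp Q v (hQ.2 v))]
    refine ⟨fun x => ?_, fun x => ?_⟩
    · rw [hs x]
      exact edge1 g Q x
    · rw [hs x]
      exact edge2 g Q x
  · intro Qf hQf hni
    simp only [mem_filter, mem_univ, true_and] at hQf
    by_contra hne
    have hgood : ∀ x, Fn (Qf x) ∧ Qf x ∈ typ h s x := by
      intro x
      by_contra hx
      apply hne
      apply prod_eq_zero (mem_univ x)
      simp only [hW]
      rw [if_neg hx]
    have hs : ∀ v, sel v (Qf v) = Qf v := by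
      intro v
      simp only [hsel]
      rw [if_pos (hgood v).2]
    have hmem : ∀ v, ∀ p ∈ Qf v, v ∈ g p := by
      intro v p hp
      have := (hgood v).2
      simp only [typ, mem_filter, mem_univ, true_and] at this
      exact this.1 p hp
    have hc := consistent g (fun p => hconn p.1) Qf hmem
      (fun x => by have := hQf.1 x; rw [hs x] at this; exact this)
      (fun x => by have := hQf.2 x; rw [hs x] at this; exact this)
    apply hni
    refine ⟨univ.biUnion Qf, ?_, ?_⟩
    · simp only [coe_filter, mem_univ, true_and, Set.mem_ofPred_eq]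
      refine ⟨?_, ?_⟩
      · intro X h1 h2
        have hv : root X ∈ g (X, true) := hroot X
        have h3 : (X, true) ∈ Qf (root X) := by
          rw [hc (root X), mem_filter]
          exact ⟨h1, hv⟩
        have h4 : (X, false) ∈ Qf (root X) := by
          rw [hc (root X), mem_filter]
          exact ⟨h2, hv⟩
        exact (hgood (root X)).1 X h3 h4
      · intro v
        have := (hgood v).2
        simp only [typ, mem_filter, mem_univ, true_and] at this
        have h5 := this.2
        rw [hc v] at h5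
        exact h5
    · funext v
      exact (hc v).symm
  · intro Q hQ
    simp only [mem_filter, mem_univ, true_and] at hQ
    have h1 : ∀ x, W x (σ x) (Q.filter (fun p => x ∈ g p)) =
        ∏ p ∈ Q.filter (fun p => x ∈ g p), w x (σ x) p := by
      intro x
      simp only [hW]
      rw [if_pos]
      refine ⟨?_, htyp Q x (hQ.2 x)⟩
      intro X h3 h4
      exact hQ.1 X (mem_filter.1 h3).1 (mem_filter.1 h4).1
    simp only [h1]
    rw [prod_comm' (t' := Q) (s' := fun p => h p.1)]
    · exact prod_congr rfl fun p _ => (hf' p).symm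
    · intro x p
      simp only [mem_univ, true_and, mem_filter, hg]
      tauto

end Pool.Agent.Q265.KT.RP
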